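import Mathlib

set_option autoImplicit false

namespace Pool.Agent.H.MP_718be6_lc

open FirstOrder

/-- atoms `R(t_1,...,t_n)` with variables from `α` -/
def Atom (L : FirstOrder.Language.{0, 0}) (α : Type) : Type := Σ n : ℕ, L.Relations n × (Fin n → L.Term α)

def Atom.ground {L : FirstOrder.Language.{0, 0}} (a : Atom L ℕ) (σ : ℕ → L.Term Empty) : Atom L Empty :=
  ⟨a.1, a.2.1, fun i => (a.2.2 i).subst σ⟩

def Atom.vars {L : FirstOrder.Language.{0, 0}} (a : Atom L ℕ) : Finset ℕ :=
  Finset.univ.biUnion fun i => (a.2.2 i).varFinset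

structure NRule (L : FirstOrder.Language.{0, 0}) where
  head : Atom L ℕ
  pos : List (Atom L ℕ)
  neg : List (Atom L ℕ)

def InternalFree {L : FirstOrder.Language.{0, 0}} (P : List (NRule L)) : Prop :=
  ∀ r ∈ P, ∀ b ∈ r.pos ++ r.neg, b.vars ⊆ r.head.vars

def ReductModel {L : FirstOrder.Language.{0, 0}} (P : List (NRule L)) (I J : Atom L Empty → Fin 3) : Prop :=
  ∀ r ∈ P, ∀ σ : ℕ → L.Term Empty, ∀ t : Fin 3, (∀ b ∈ r.pos, t ≤ J (b.ground σ)) →
    (∀ c ∈ r.neg, t ≤ (I (c.ground σ)).rev) → t ≤ J (r.head.ground σ)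

def StablePartial {L : FirstOrder.Language.{0, 0}} (P : List (NRule L)) (I : Atom L Empty → Fin 3) : Prop :=
  IsLeast {J | ReductModel P I J} I

def LStable {L : FirstOrder.Language.{0, 0}} (P : List (NRule L)) (I : Atom L Empty → Fin 3) : Prop :=
  StablePartial P I ∧ ¬ ∃ J, StablePartial P J ∧ {a | J a = 1} ⊂ {a | I a = 1}

inductive Fn : ℕ → Type
  | zero : Fn 0
  | succ : Fn 1

inductive Rl : ℕ → Type
  | c : Rl 1
  | d : Rl 1
  | q : Rl 1
  | r : Rl 1
  | z : Rl 1

def lang : FirstOrder.Language.{0, 0} := ⟨Fn, Rl⟩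

def tx : lang.Term ℕ := FirstOrder.Language.Term.var 0
def t0 {α : Type} : lang.Term α := FirstOrder.Language.Term.func Fn.zero Fin.elim0
def ts {α : Type} (t : lang.Term α) : lang.Term α := FirstOrder.Language.Term.func Fn.succ fun _ => t
def atom {α : Type} (R : Rl 1) (t : lang.Term α) : Atom lang α := ⟨1, R, fun _ => t⟩

def prog : List (NRule lang) :=
  [⟨atom .c tx, [], [atom .d tx]⟩,
   ⟨atom .d tx, [], [atom .c tx]⟩,
   ⟨atom .q tx, [atom .q (ts tx)], []⟩,
   ⟨atom .q tx, [atom .c tx], []⟩,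
   ⟨atom .r (ts tx), [atom .r tx], []⟩,
   ⟨atom .r (ts tx), [atom .c tx], []⟩,
   ⟨atom .z tx, [], [atom .z tx, atom .q t0]⟩,
   ⟨atom .z tx, [atom .r tx], [atom .z tx]⟩]

lemma finite_symbols : Finite lang.Symbols := by
  have h1 : Finite (Σ n, Fn n) :=
    Finite.of_surjective (fun b : Bool => if b then (⟨0, Fn.zero⟩ : Σ n, Fn n) else ⟨1, Fn.succ⟩)
      (by rintro ⟨n, f⟩; cases f; exacts [⟨true, rfl⟩, ⟨false, rfl⟩])
  have h2 : Finite (Σ n, Rl n) :=
    Finite.of_surjective (fun i : Fin 5 => (⟨1, ![Rl.c, Rl.d, Rl.q, Rl.r, Rl.z] i⟩ : Σ n, Rl n))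
      (by rintro ⟨n, f⟩; cases f; exacts [⟨0, rfl⟩, ⟨1, rfl⟩, ⟨2, rfl⟩, ⟨3, rfl⟩, ⟨4, rfl⟩])
  exact @Finite.instSum _ _ h1 h2

lemma ivf : InternalFree prog := by
  intro r hr b hb
  simp only [prog, List.mem_cons, List.not_mem_nil, or_false] at hr
  rcases hr with rfl | rfl | rfl | rfl | rfl | rfl | rfl | rfl <;>
    simp only [List.cons_append, List.nil_append, List.mem_cons, List.not_mem_nil, or_false] at hb <;>
    rcases hb with rfl | rfl <;> simp [Atom.vars, atom, tx, ts, t0, FirstOrder.Language.Term.varFinset] <;>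
    exact id

def num : ℕ → lang.Term Empty
  | 0 => t0
  | n + 1 => ts (num n)

def val : lang.Term Empty → ℕ
  | .var e => e.elim
  | .func Fn.zero _ => 0
  | .func Fn.succ a => val (a 0) + 1

lemma val_num (n : ℕ) : val (num n) = n := by
  induction n with
  | zero => simp [num, t0, val]
  | succ n ih => simp [num, ts, val, ih]

lemma num_val (t : lang.Term Empty) : num (val t) = t := by
  induction t with
  | var e => exact e.elim
  | func f a ih =>
    cases f with
    | zero => simp only [val, num, t0]; congr; exact funext fun i => i.elim0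
    | succ =>
      simp only [val, num, ts, ih]; congr
      exact funext fun i => by rw [Subsingleton.elim i 0]

def at' (R : Rl 1) (n : ℕ) : Atom lang Empty := atom R (num n)

lemma atom_cases (a : Atom lang Empty) : ∃ R n, a = at' R n := by
  obtain ⟨n, R, t⟩ := a
  have : n = 1 := by cases R <;> rfl
  subst this
  refine ⟨R, val (t 0), ?_⟩
  simp only [at', atom, num_val]
  congr
  exact funext fun i => by rw [Subsingleton.elim i 0]

def lift (f : Rl 1 → ℕ → Fin 3) : Atom lang Empty → Fin 3
  | ⟨_, Rl.c, t⟩ => f .c (val (t 0))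
  | ⟨_, Rl.d, t⟩ => f .d (val (t 0))
  | ⟨_, Rl.q, t⟩ => f .q (val (t 0))
  | ⟨_, Rl.r, t⟩ => f .r (val (t 0))
  | ⟨_, Rl.z, t⟩ => f .z (val (t 0))

@[simp] lemma lift_at (f : Rl 1 → ℕ → Fin 3) (R : Rl 1) (n : ℕ) : lift f (at' R n) = f R n := by
  cases R <;> simp [lift, at', atom, val_num]

def M (I J : Rl 1 → ℕ → Fin 3) : Prop := ∀ n,
  (I .d n).rev ≤ J .c n ∧ (I .c n).rev ≤ J .d n ∧ J .q (n + 1) ≤ J .q n ∧ J .c n ≤ J .q n ∧
  J .r n ≤ J .r (n + 1) ∧ J .c n ≤ J .r (n + 1) ∧ min (I .z n).rev (I .q 0).rev ≤ J .z n ∧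
  min (J .r n) (I .z n).rev ≤ J .z n

lemma g1 (R : Rl 1) (σ : ℕ → lang.Term Empty) : (atom R tx).ground σ = at' R (val (σ 0)) := by
  simp [atom, tx, Atom.ground, at', num_val, FirstOrder.Language.Term.subst]
lemma g2 (R : Rl 1) (σ : ℕ → lang.Term Empty) :
    (atom R (ts tx)).ground σ = at' R (val (σ 0) + 1) := by
  simp [atom, tx, ts, Atom.ground, at', num, num_val, FirstOrder.Language.Term.subst]
lemma g3 (R : Rl 1) (σ : ℕ → lang.Term Empty) : (atom R t0).ground σ = at' R 0 := by
  simp only [atom, t0, Atom.ground, at', num, FirstOrder.Language.Term.subst]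
  congr; funext _; congr; exact funext fun i => i.elim0

lemma model_iff (I J : Atom lang Empty → Fin 3) :
    ReductModel prog I J ↔ M (fun R n => I (at' R n)) (fun R n => J (at' R n)) := by
  simp only [ReductModel, prog, List.mem_cons, List.not_mem_nil, or_false, forall_eq_or_imp,
    forall_eq, g1, g2, g3, false_imp_iff, implies_true, forall_true_left, M]
  constructor
  · rintro ⟨h1, h2, h3, h4, h5, h6, h7, h8⟩ n
    have e : val ((fun _ : ℕ => num n) 0) = n := val_num n
    refine ⟨?_, ?_, ?_, ?_, ?_, ?_, ?_, ?_⟩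
    · have := h1 (fun _ => num n); rw [e] at this; exact this _ le_rfl
    · have := h2 (fun _ => num n); rw [e] at this; exact this _ le_rfl
    · have := h3 (fun _ => num n); rw [e] at this; exact this _ le_rfl
    · have := h4 (fun _ => num n); rw [e] at this; exact this _ le_rfl
    · have := h5 (fun _ => num n); rw [e] at this; exact this _ le_rfl
    · have := h6 (fun _ => num n); rw [e] at this; exact this _ le_rfl
    · have := h7 (fun _ => num n); rw [e] at this; exact this _ ⟨min_le_left _ _, min_le_right _ _⟩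
    · have := h8 (fun _ => num n); rw [e] at this; exact this _ (min_le_left _ _) (min_le_right _ _)
  · intro h
    refine ⟨fun σ t a => a.trans (h _).1, fun σ t a => a.trans (h _).2.1,
      fun σ t a => a.trans (h _).2.2.1, fun σ t a => a.trans (h _).2.2.2.1,
      fun σ t a => a.trans (h _).2.2.2.2.1, fun σ t a => a.trans (h _).2.2.2.2.2.1,
      fun σ t a => (le_min a.1 a.2).trans (h _).2.2.2.2.2.2.1,
      fun σ t a b => (le_min a b).trans (h _).2.2.2.2.2.2.2⟩

def Jm (m : ℕ) : Rl 1 → ℕ → Fin 3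
  | .c, n => if n = m then 2 else 0
  | .d, n => if n = m then 0 else 2
  | .q, n => if n ≤ m then 2 else 0
  | .r, n => if n ≤ m then 0 else 2
  | .z, n => if n ≤ m then 0 else 1

lemma Jm_stable (m : ℕ) : StablePartial prog (lift (Jm m)) := by
  constructor
  · show ReductModel prog _ _
    rw [model_iff]
    intro n
    simp only [lift_at, Jm]
    refine ⟨?_, ?_, ?_, ?_, ?_, ?_, ?_, ?_⟩ <;> split_ifs <;> first | decide | omega
  · intro K hK a
    have h := (model_iff _ _).1 hK
    simp only [M, lift_at, Jm] at h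
    have hc : K (at' .c m) = 2 := by
      have := (h m).1; simp only [if_true] at this; exact le_antisymm (Fin.le_last _) this
    have hq : ∀ k n, n + k = m → K (at' .q n) = 2 := by
      intro k
      induction k with
      | zero => intro n hn; obtain rfl : n = m := hn
                exact le_antisymm (Fin.le_last _) (hc ▸ (h n).2.2.2.1)
      | succ k ih =>
        intro n hn
        exact le_antisymm (Fin.le_last _) (ih (n + 1) (by omega) ▸ (h n).2.2.1)
    have hr : ∀ k, K (at' .r (m + 1 + k)) = 2 := by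
      intro k
      induction k with
      | zero => exact le_antisymm (Fin.le_last _) (hc ▸ (h m).2.2.2.2.2.1)
      | succ k ih => exact le_antisymm (Fin.le_last _) (ih ▸ (h (m + 1 + k)).2.2.2.2.1)
    obtain ⟨R, n, rfl⟩ := atom_cases a
    rw [lift_at]
    cases R <;> simp only [Jm] <;> split_ifs with h1 <;> try exact Fin.zero_le _
    · subst h1; exact hc.ge
    · have := (h n).2.1; simp only [if_neg h1] at this; exact this
    · exact (hq (m - n) n (by omega)).ge
    · have := hr (n - (m + 1)); rw [show m + 1 + (n - (m + 1)) = n by omega] at this; exact this.ge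
    · have h2 := hr (n - (m + 1))
      rw [show m + 1 + (n - (m + 1)) = n by omega] at h2
      have := (h n).2.2.2.2.2.2.2
      rw [h2, if_neg h1] at this
      exact this

lemma tail_undefined {I : Atom lang Empty → Fin 3} (hI : StablePartial prog I) :
    ∃ m, ∀ n, m < n → I (at' .z n) = 1 := by
  have h := (model_iff _ _).1 hI.1
  simp only [M] at h
  have hz : ∀ n, I (at' .z n) ≠ 2 := by
    let f : Rl 1 → ℕ → Fin 3 := fun R n => match R with
      | .z => min (I (at' .z n)) (I (at' .z n)).rev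
      | R => I (at' R n)
    have := hI.2 ((model_iff I (lift f)).2 (by
      intro n
      simp only [lift_at, f]
      obtain ⟨h1, h2, h3, h4, h5, h6, h7, h8⟩ := h n
      exact ⟨h1, h2, h3, h4, h5, h6, le_min h7 (min_le_left _ _), le_min h8 (min_le_right _ _)⟩))
    intro n hn
    have := this (at' .z n)
    simp only [lift_at, f, hn] at this
    exact absurd this (by decide : ¬ (2 : Fin 3) ≤ min 2 (Fin.rev 2))
  by_cases hq : I (at' .q 0) = 2
  · have : ∃ m, I (at' .c m) = 2 := by
      by_contra hc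
      push Not at hc
      let f : Rl 1 → ℕ → Fin 3 := fun R n => match R with
        | .q => min (I (at' .q n)) 1
        | R => I (at' R n)
      have := hI.2 ((model_iff I (lift f)).2 (by
        intro n
        simp only [lift_at, f]
        obtain ⟨h1, h2, h3, h4, h5, h6, h7, h8⟩ := h n
        refine ⟨h1, h2, min_le_min_right _ h3, le_min h4 ?_, h5, h6, h7, h8⟩
        exact (by decide : ∀ x : Fin 3, x ≠ 2 → x ≤ 1) _ (hc n)))
      have := this (at' .q 0)
      simp only [lift_at, f, hq] at this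
      revert this; decide
    obtain ⟨m, hm⟩ := this
    have hr : ∀ k, I (at' .r (m + 1 + k)) = 2 := by
      intro k
      induction k with
      | zero => exact le_antisymm (Fin.le_last _) (hm ▸ (h m).2.2.2.2.2.1)
      | succ k ih => exact le_antisymm (Fin.le_last _) (ih ▸ (h (m + 1 + k)).2.2.2.2.1)
    refine ⟨m, fun n hn => ?_⟩
    have h2 := hr (n - (m + 1))
    rw [show m + 1 + (n - (m + 1)) = n by omega] at h2
    have := (h n).2.2.2.2.2.2.2
    rw [h2] at this
    exact (by decide : ∀ x : Fin 3, x ≠ 2 → min 2 x.rev ≤ x → x = 1) _ (hz n) this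
  · refine ⟨0, fun n _ => ?_⟩
    exact (by decide : ∀ x y : Fin 3, x ≠ 2 → y ≠ 2 → min x.rev y.rev ≤ x → x = 1) _ _ (hz n) hq
      (h n).2.2.2.2.2.2.1

theorem main : ¬ ∃ I, LStable prog I := by
  rintro ⟨I, hI, hn⟩
  obtain ⟨m, hm⟩ := tail_undefined hI
  refine hn ⟨lift (Jm (m + 1)), Jm_stable _, fun a ha => ?_, fun h => ?_⟩
  · obtain ⟨R, n, rfl⟩ := atom_cases a
    have ha' : lift (Jm (m + 1)) (at' R n) = 1 := ha
    rw [lift_at] at ha'
    cases R <;> simp only [Jm] at ha' <;> split_ifs at ha' with h1 <;>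
      first | exact absurd ha' (by decide) | exact hm n (by omega)
  · have : lift (Jm (m + 1)) (at' .z (m + 1)) = 1 := h (hm (m + 1) (by omega))
    rw [lift_at] at this
    simp [Jm] at this

end Pool.Agent.H.MP_718be6_lc
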